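import Mathlib

/-! K9: the numbers -/

set_option autoImplicit false

namespace Pool.Agent.Helper12.EK

theorem num_aux1 (x m : ℕ) : x ^ m * (x + m) ≤ x * (x + 1) ^ m := by
  induction m with
  | zero => simp
  | succ m ih =>
    have h1 : x ^ m * (x + m) * (x + 1) ≤ x * (x + 1) ^ m * (x + 1) := Nat.mul_le_mul_right _ ih
    have h2 : x ^ (m + 1) * (x + (m + 1)) ≤ x ^ m * (x + m) * (x + 1) := by
      have h3 : x ^ m * (x + m) * (x + 1) = x ^ (m + 1) * (x + (m + 1)) + x ^ m * m := by ring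
      rw [h3]
      exact Nat.le_add_right _ _
    calc x ^ (m + 1) * (x + (m + 1)) ≤ x ^ m * (x + m) * (x + 1) := h2
      _ ≤ x * (x + 1) ^ m * (x + 1) := h1
      _ = x * (x + 1) ^ (m + 1) := by ring

theorem num_aux2 (x : ℕ) : 2 * x ^ (x + 1) ≤ (x + 1) ^ (x + 1) := by
  rcases Nat.eq_zero_or_pos x with h | h
  · subst h
    simp
  · have h1 := num_aux1 x (x + 1)
    have h2 : x * (2 * x ^ (x + 1)) ≤ x * (x + 1) ^ (x + 1) := by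
      refine le_trans ?_ h1
      have h3 : x ^ (x + 1) * (x + (x + 1)) = x * (2 * x ^ (x + 1)) + x ^ (x + 1) := by ring
      rw [h3]
      exact Nat.le_add_right _ _
    exact Nat.le_of_mul_le_mul_left h2 h

theorem num_aux3 {q : ℕ} (hq : 1 ≤ q) (t : ℕ) : 2 ^ t * (q - 1) ^ (q * t) ≤ q ^ (q * t) := by
  obtain ⟨x, rfl⟩ : ∃ x, q = x + 1 := ⟨q - 1, by omega⟩
  rw [Nat.add_sub_cancel, pow_mul, pow_mul, ← mul_pow]
  exact Nat.pow_le_pow_left (num_aux2 x) t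

theorem num_aux4 {q : ℕ} (hq : 1 ≤ q) {t u : ℕ} (hu : u ≤ t) :
    2 ^ u * (q - 1) ^ (q * t + 1) ≤ q ^ (q * t + 1) := by
  calc 2 ^ u * (q - 1) ^ (q * t + 1) ≤ 2 ^ t * (q - 1) ^ (q * t + 1) :=
        Nat.mul_le_mul_right _ (Nat.pow_le_pow_right (by norm_num) hu)
    _ = 2 ^ t * (q - 1) ^ (q * t) * (q - 1) := by ring
    _ ≤ q ^ (q * t) * q := Nat.mul_le_mul (num_aux3 hq t) (Nat.sub_le _ _)
    _ = q ^ (q * t + 1) := by ring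

theorem num_aux5 {j : ℕ} (hj : 6 ≤ j) : 40 * (j + 1) ^ 2 + j ≤ 4 ^ j := by
  induction j, hj using Nat.le_induction with
  | base => norm_num
  | succ j hj ih =>
    rw [pow_succ 4 j]
    nlinarith

/-- K9: the numbers: `q = 2 ^ j`, `L = 8 ^ j`, `M₀ = 4 ^ j`, `s' = 2 ^ (40 j ^ 2)`, `s = 2 ^ (40 (j + 1) ^ 2)`, `D = a 4 ^ j + b` -/
theorem num (a b : ℕ) : ∃ j₀, 1 ≤ j₀ ∧ ∀ j, j₀ ≤ j →
    2 ^ (40 * (j + 1) ^ 2) * (2 ^ j - 1) ^ (8 ^ j + 1) * 2 ^ j ≤ (2 ^ j) ^ (8 ^ j + 1) ∧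
    (2 ^ j - 1) ^ (4 ^ j + 1) * 2 ^ j ≤ (2 ^ j) ^ (4 ^ j + 1) ∧
    ((4 ^ j + 1) * (2 * 8 ^ j + 1) ^ 2) ^ (Nat.log 2 (4 ^ j) + 1) ≤ 2 ^ (40 * j ^ 2) ∧
    4 ^ j * ((a * 4 ^ j + b) + 16 * (8 ^ j) ^ 3 + 4 * 8 ^ j + 1) ≤ 2 ^ (40 * j ^ 2) := by
  refine ⟨a + b + 21, by omega, fun j hj => ?_⟩
  have hq : 1 ≤ 2 ^ j := Nat.one_le_two_pow
  have e8 : 8 ^ j = 2 ^ j * 4 ^ j := by
    rw [← mul_pow]
    norm_num
  have e4 : 4 ^ j = 2 ^ j * 2 ^ j := by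
    rw [← mul_pow]
    norm_num
  have e42 : (4 : ℕ) ^ j = 2 ^ (2 * j) := by
    rw [pow_mul]
    norm_num
  have e82 : (8 : ℕ) ^ j = 2 ^ (3 * j) := by
    rw [pow_mul]
    norm_num
  refine ⟨?_, ?_, ?_, ?_⟩
  · have h1 := num_aux4 hq (t := 4 ^ j) (u := 40 * (j + 1) ^ 2 + j) (num_aux5 (by omega))
    rw [← e8, pow_add 2 _ j] at h1
    calc 2 ^ (40 * (j + 1) ^ 2) * (2 ^ j - 1) ^ (8 ^ j + 1) * 2 ^ j =
        2 ^ (40 * (j + 1) ^ 2) * 2 ^ j * (2 ^ j - 1) ^ (8 ^ j + 1) := by ring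
      _ ≤ _ := h1
  · have h1 := num_aux4 hq (t := 2 ^ j) (u := j) Nat.lt_two_pow_self.le
    rw [← e4] at h1
    rw [mul_comm]
    exact h1
  · have h1 : (4 ^ j + 1) * (2 * 8 ^ j + 1) ^ 2 ≤ 2 ^ (8 * j + 5) := by
      have h4 : 1 ≤ 4 ^ j := Nat.one_le_pow _ _ (by norm_num)
      have h8 : 1 ≤ 8 ^ j := Nat.one_le_pow _ _ (by norm_num)
      calc (4 ^ j + 1) * (2 * 8 ^ j + 1) ^ 2 ≤ (2 * 4 ^ j) * (4 * 8 ^ j) ^ 2 :=
            Nat.mul_le_mul (by omega) (Nat.pow_le_pow_left (by omega) 2)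
        _ = 2 ^ (8 * j + 5) := by
            rw [e42, e82]
            ring
    have h2 : Nat.log 2 (4 ^ j) = 2 * j := by
      rw [e42]
      exact Nat.log_pow (by norm_num) _
    rw [h2]
    calc ((4 ^ j + 1) * (2 * 8 ^ j + 1) ^ 2) ^ (2 * j + 1) ≤ (2 ^ (8 * j + 5)) ^ (2 * j + 1) :=
          Nat.pow_le_pow_left h1 _
      _ = 2 ^ ((8 * j + 5) * (2 * j + 1)) := by rw [← pow_mul]
      _ ≤ 2 ^ (40 * j ^ 2) := Nat.pow_le_pow_right (by norm_num) (by nlinarith)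
  · have h4 : 1 ≤ 4 ^ j := Nat.one_le_pow _ _ (by norm_num)
    have h8 : 1 ≤ 8 ^ j := Nat.one_le_pow _ _ (by norm_num)
    have h5 : (8 ^ j) ^ 3 = 512 ^ j := by
      rw [← pow_mul, mul_comm, pow_mul]
      norm_num
    have h6 : 4 ^ j ≤ 512 ^ j := Nat.pow_le_pow_left (by norm_num) j
    have h7 : 8 ^ j ≤ 512 ^ j := Nat.pow_le_pow_left (by norm_num) j
    have h9 : 1 ≤ 512 ^ j := Nat.one_le_pow _ _ (by norm_num)
    have h10 : (a * 4 ^ j + b) + 16 * (8 ^ j) ^ 3 + 4 * 8 ^ j + 1 ≤ (a + b + 21) * 512 ^ j := by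
      rw [h5]
      nlinarith [Nat.mul_le_mul_left a h6, Nat.mul_le_mul_left b h9]
    have h11 : a + b + 21 ≤ 2 ^ j := hj.trans Nat.lt_two_pow_self.le
    calc 4 ^ j * ((a * 4 ^ j + b) + 16 * (8 ^ j) ^ 3 + 4 * 8 ^ j + 1) ≤ 4 ^ j * (2 ^ j * 512 ^ j) :=
          Nat.mul_le_mul_left _ (h10.trans (Nat.mul_le_mul_right _ h11))
      _ = 2 ^ (12 * j) := by
          rw [← mul_pow, ← mul_pow, pow_mul]
          norm_num
      _ ≤ 2 ^ (40 * j ^ 2) := Nat.pow_le_pow_right (by norm_num) (by nlinarith)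

end Pool.Agent.Helper12.EK
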